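import Pool.Agent.H83.D3N.Targets

set_option autoImplicit false

namespace Pool.Agent.H53.D3N.QCV

open Pool.Agent.H83.D3N
open Pool.Agent.H83.G (Z E ph)
open Pool.Agent.H81.GT (Qz)
open Pool.Agent.H91.EL
open Pool.Agent.H92.EZ (sgm dsg Qd ldz)
open scoped RealInnerProductSpace

/-- the dual vector -/
noncomputable def bb (m : Z 2) : Z 2 := (2 * m.2.2, -m.2.1, 2 * m.1)

theorem ph_bb (d m : Z 2) : ph d (bb m) = qB d m := by
  unfold ph bb qB
  simp only [inner_neg_right]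
  ring

theorem norm_bb (m : Z 2) : ‖m‖ ≤ ‖bb m‖ := by
  have h1 := norm_fst_le' (bb m)
  have h2 := norm_y_le (bb m)
  have h3 := norm_w_le (bb m)
  simp only [bb, norm_neg, abs_mul, abs_two] at h1 h2 h3
  have e : (2 * m.2.2, -m.2.1, 2 * m.1) = bb m := rfl
  rw [e] at h1 h2 h3
  have a1 := abs_nonneg m.1
  have a2 := abs_nonneg m.2.2
  rw [Prod.norm_def, Prod.norm_def]
  refine max_le ?_ (max_le h2 ?_)
  · rw [Real.norm_eq_abs]
    linarith
  · rw [Real.norm_eq_abs]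
    linarith

theorem ph_smul (t : ℝ) (d b : Z 2) : ph d (t • b) = t * ph d b := by
  unfold ph
  simp only [Prod.smul_fst, Prod.smul_snd, inner_smul_right, smul_eq_mul]
  ring

theorem Qd_eq (d : Z 2) : Qd d = -qQ d := by
  unfold Qd qQ qB
  rw [real_inner_self_eq_norm_sq]
  ring

theorem ldz_eq (θ : E 2) : ldz θ = ll θ := by
  unfold ldz ll
  rw [neg_smul]

theorem Qz_eq (d : Z 2) (θ : E 2) : 2 * Qz d θ = qB (ll θ) d := by
  rw [qB_ll]
  rfl

theorem pf_QCV : T_QCV := by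
  intro ρ lam n a z₀ hρ hn
  have hρ0 : 0 < ρ := by linarith
  set m : Z 2 := (2 : ℝ) • n + (2 * lam) • (z₀ - a) with hm
  set M : ℝ := max (|lam| * ρ ^ 2) ‖bb m‖ with hM
  have hM1 : |lam| * ρ ^ 2 ≤ M := le_max_left _ _
  have hM2 : ‖bb m‖ ≤ M := le_max_right _ _
  have hlam : |lam| ≤ M * ρ⁻¹ ^ 2 := by
    rw [inv_pow, ← div_eq_mul_inv, le_div_iff₀ (by positivity)]
    exact hM1
  have h2 : 2 ≤ M + 2 * (M * ρ⁻¹ ^ 2) * ‖z₀ - a‖ := by
    have e1 : (2 : ℝ) • n = m - (2 * lam) • (z₀ - a) := by rw [hm]; abel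
    have e2 : ‖(2 : ℝ) • n‖ = 2 := by
      rw [norm_smul, hn, Real.norm_eq_abs, abs_of_pos (by norm_num)]
      ring
    calc (2 : ℝ) = ‖(2 : ℝ) • n‖ := e2.symm
      _ = ‖m - (2 * lam) • (z₀ - a)‖ := by rw [← e1]
      _ ≤ ‖m‖ + ‖(2 * lam) • (z₀ - a)‖ := norm_sub_le _ _
      _ ≤ M + 2 * (M * ρ⁻¹ ^ 2) * ‖z₀ - a‖ := by
        apply add_le_add ((norm_bb m).trans hM2)
        rw [norm_smul, Real.norm_eq_abs, abs_mul, abs_of_pos (show (0 : ℝ) < 2 by norm_num)]
        apply mul_le_mul_of_nonneg_right _ (norm_nonneg _)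
        linarith
  have hM0 : 0 ≤ M := (norm_nonneg _).trans hM2
  have hMp : 0 < M := by
    rcases hM0.lt_or_eq with h | h
    · exact h
    · rw [← h] at h2
      norm_num at h2
  refine ⟨M, -lam / M, (lam * qQ (z₀ - a) + 2 * qB n (z₀ - a)) / M, M⁻¹ • bb m, hMp, ?_, ?_, ?_, ?_,
    ?_⟩
  · have : 0 ≤ M * (ρ⁻¹ ^ 2 * ‖z₀ - a‖) := by positivity
    nlinarith
  · rw [abs_div, abs_neg, abs_of_pos hMp, div_le_iff₀ hMp]
    linarith
  · rw [norm_smul, norm_inv, Real.norm_eq_abs, abs_of_pos hMp, inv_mul_le_iff₀ hMp]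
    linarith
  · rcases le_total (|lam| * ρ ^ 2) ‖bb m‖ with h | h
    · right
      have hMe : M = ‖bb m‖ := max_eq_right h
      rw [norm_smul, norm_inv, Real.norm_eq_abs, abs_of_pos hMp, hMe, inv_mul_cancel₀ (by
        rw [← hMe]; exact hMp.ne')]
      norm_num
    · left
      have hMe : M = |lam| * ρ ^ 2 := max_eq_left h
      rw [abs_div, abs_neg, abs_of_pos hMp, le_div_iff₀ hMp, hMe]
      have : 1 / 2 * ρ⁻¹ ^ 2 * (|lam| * ρ ^ 2) = 1 / 2 * |lam| := by
        field_simp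
      rw [this]
      have := abs_nonneg lam
      linarith
  · intro u θ
    have hMM : M * M⁻¹ = 1 := mul_inv_cancel₀ hMp.ne'
    have hu : u - a = (z₀ - a) + (u - z₀) := by abel
    constructor
    · unfold sgm
      rw [Qd_eq, ph_smul, ph_bb]
      have e1 : M * (-lam / M * -qQ (u - z₀) + M⁻¹ * qB (u - z₀) m +
          (lam * qQ (z₀ - a) + 2 * qB n (z₀ - a)) / M) =
          lam * qQ (u - z₀) + qB (u - z₀) m + (lam * qQ (z₀ - a) + 2 * qB n (z₀ - a)) := by
        field_simp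
      rw [e1]
      unfold Sg
      rw [hu, qQ_add, qB_add_right (z₀ - a) (u - z₀) n, hm, qB_comm (u - z₀), qB_add_left,
        qB_smul_left, qB_smul_left]
      ring
    · unfold dsg
      rw [ph_smul, ldz_eq, ph_bb]
      have e1 : M * (M⁻¹ * qB (ll θ) m - 4 * (-lam / M) * Qz (u - z₀) θ) =
          qB (ll θ) m + 2 * lam * (2 * Qz (u - z₀) θ) := by
        field_simp
        ring
      rw [e1, Qz_eq]
      have e2 : gr lam n a u = m + (2 * lam) • (u - z₀) := by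
        unfold gr
        rw [hm, hu, smul_add]
        abel
      rw [e2, qB_comm _ (ll θ), qB_add_right m ((2 * lam) • (u - z₀)) (ll θ),
        qB_smul_right (2 * lam) (u - z₀) (ll θ)]

end Pool.Agent.H53.D3N.QCV
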