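import Pool.Agent.H83.D3N.Targets

set_option autoImplicit false

namespace Pool.Agent.H53.D3N.SHF

open Pool.Agent.H83.D3N
open Pool.Agent.H83.G (Z E Lo)
open Pool.Agent.H91.EL
open scoped RealInnerProductSpace

theorem w_le {ρ D : ℝ} {η : E 2} {v : Z 2} (hρ : 1 ≤ ρ) (h : ‖Lo η ρ⁻¹ v‖ ≤ D) :
    |v.2.2| ≤ D * ρ ^ 2 := by
  have hρ0 : 0 < ρ := by linarith
  have h1 := (norm_w_le (Lo η ρ⁻¹ v)).trans h
  have h2 : (Lo η ρ⁻¹ v).2.2 = ρ⁻¹ ^ 2 * v.2.2 := rfl
  rw [h2, abs_mul, abs_of_nonneg (by positivity), inv_pow, inv_mul_le_iff₀ (by positivity)] at h1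
  linarith

theorem Sg_sub (lam : ℝ) (n a z u : Z 2) :
    Sg lam n a u = Sg lam n a z - qB (gr lam n a z) (z - u) + lam * qQ (z - u) := by
  have e1 : u - a = (z - a) - (z - u) := by abel
  unfold Sg gr
  rw [e1, qQ_sub, qB_sub_right (z - a) (z - u) n, qB_add_left, qB_smul_left, qB_smul_left]
  ring

theorem gr_sub (lam : ℝ) (n a z u : Z 2) :
    gr lam n a u = gr lam n a z - (2 * lam) • (z - u) := by
  have e1 : u - a = (z - a) - (z - u) := by abel
  unfold gr
  rw [e1, smul_sub]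
  abel

theorem pf_SHF : T_SHF := by
  refine ⟨125, by norm_num, ?_⟩
  intro ρ D Λ lam e₁ e₂ n a z u η hρ hD hΛ hn hη hlam hza hLo hS hG
  have hρ0 : 0 < ρ := by linarith
  have hD0 : 0 < D := by linarith
  have hΛ0 : 0 < Λ := by linarith
  have he2 : 0 ≤ e₂ := (abs_nonneg _).trans hG
  have hw := w_le hρ hLo
  obtain ⟨e, h1, h2, h3, h4, h5⟩ := dec (z := z) (z' := u) hρ hD hη hLo
  have hwe : (z - u).2.2 = z.2.2 - u.2.2 := rfl
  rw [hwe] at hw
  set w := z.2.2 - u.2.2 with hwd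
  -- the gradient
  have hgr : ‖gr lam n a z‖ ≤ 6 * Λ := by
    unfold gr
    refine (norm_add_le _ _).trans ?_
    rw [norm_smul, norm_smul, hn, Real.norm_eq_abs, Real.norm_eq_abs, abs_mul]
    have : |(2 : ℝ)| = 2 := abs_of_pos (by norm_num)
    rw [this]
    have h6 : |lam| * ‖z - a‖ ≤ |lam| * (2 * ρ ^ 2) := mul_le_mul_of_nonneg_left hza (abs_nonneg _)
    nlinarith
  have hB1 : |qB (gr lam n a z) (z - u)| ≤ D * ρ ^ 2 * e₂ + 120 * Λ * D * ρ := by
    rw [h1, qB_add_right, qB_smul_right]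
    refine (abs_add_le _ _).trans ?_
    apply add_le_add
    · rw [abs_mul]
      exact mul_le_mul hw hG (abs_nonneg _) (by positivity)
    · refine (abs_qB_le _ _).trans ?_
      have := mul_le_mul hgr h5 (norm_nonneg _) (by positivity)
      linarith
  have hQe : qQ e = -‖e.2.1‖ ^ 2 := by
    unfold qQ qB
    rw [h2, real_inner_self_eq_norm_sq]
    ring
  have hQ : |qQ (z - u)| ≤ 5 * D ^ 2 * ρ ^ 2 := by
    rw [h1, qQ_add, qQ_smul, qQ_ll, qB_smul_left, hQe]
    have h6 : |w * qB (ll η) e| ≤ D * ρ ^ 2 * (2 * D) := by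
      rw [abs_mul]
      exact mul_le_mul hw h4 (abs_nonneg _) (by positivity)
    have h7 : ‖e.2.1‖ ^ 2 ≤ (D * ρ) ^ 2 := pow_le_pow_left₀ (norm_nonneg _) h3 2
    have h8 := abs_le.1 h6
    have h9 : 0 ≤ ‖e.2.1‖ ^ 2 := by positivity
    rw [abs_le]
    constructor <;> nlinarith [h8.1, h8.2]
  constructor
  · rw [Sg_sub lam n a z u]
    have h6 : |lam * qQ (z - u)| ≤ 5 * Λ * D ^ 2 := by
      rw [abs_mul]
      calc |lam| * |qQ (z - u)| ≤ |lam| * (5 * D ^ 2 * ρ ^ 2) :=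
            mul_le_mul_of_nonneg_left hQ (abs_nonneg _)
        _ = 5 * D ^ 2 * (|lam| * ρ ^ 2) := by ring
        _ ≤ 5 * D ^ 2 * Λ := mul_le_mul_of_nonneg_left hlam (by positivity)
        _ = 5 * Λ * D ^ 2 := by ring
    have h7 : 120 * Λ * D * ρ + 5 * Λ * D ^ 2 ≤ 125 * Λ * D ^ 2 * ρ := by
      have a1 : Λ * D * ρ ≤ Λ * D ^ 2 * ρ := by
        have : D ≤ D ^ 2 := by nlinarith
        have h9 : 0 ≤ Λ * ρ := by positivity
        nlinarith
      have a2 : Λ * D ^ 2 ≤ Λ * D ^ 2 * ρ := by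
        have h9 : 0 ≤ Λ * D ^ 2 := by positivity
        nlinarith
      linarith
    have b1 := abs_le.1 hS
    have b2 := abs_le.1 hB1
    have b3 := abs_le.1 h6
    rw [abs_le]
    constructor <;> linarith [b1.1, b1.2, b2.1, b2.2, b3.1, b3.2]
  · rw [gr_sub lam n a z u, qB_sub_left, qB_smul_left]
    have h6 : qB (z - u) (ll η) = qB (ll η) e := by
      rw [qB_comm, h1, qB_add_right, qB_smul_right]
      have := qQ_ll η
      unfold qQ at this
      rw [this]
      ring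
    rw [h6]
    have h7 : |2 * lam * qB (ll η) e| ≤ 125 * Λ * D / ρ ^ 2 := by
      rw [abs_mul, abs_mul, abs_of_pos (show (0 : ℝ) < 2 by norm_num), le_div_iff₀ (by positivity)]
      calc 2 * |lam| * |qB (ll η) e| * ρ ^ 2 = 2 * (|lam| * ρ ^ 2) * |qB (ll η) e| := by ring
        _ ≤ 2 * Λ * (2 * D) := by
            apply mul_le_mul (mul_le_mul_of_nonneg_left hlam (by norm_num)) h4 (abs_nonneg _)
              (by positivity)
        _ ≤ 125 * Λ * D := by
            have : 0 ≤ Λ * D := by positivity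
            linarith
    have b1 := abs_le.1 hG
    have b2 := abs_le.1 h7
    rw [abs_le]
    constructor <;> linarith [b1.1, b1.2, b2.1, b2.2]

end Pool.Agent.H53.D3N.SHF
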